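import Mathlib

/-!
# Finite sets of words and of lists of words
-/

set_option autoImplicit false

namespace Pool.Agent.H75.QC

open Finset

/-- The words of length at most `m`. -/
theorem words (m : ℕ) : ∃ W : Finset (List Bool), W.card ≤ 2 ^ (m + 1) ∧
    ∀ w : List Bool, w.length ≤ m ↔ w ∈ W := by
  classical
  refine ⟨(range (m + 1)).biUnion fun n => univ.image (List.ofFn : (Fin n → Bool) → List Bool),
    ?_, ?_⟩
  · refine card_biUnion_le.trans ?_
    have h : ∀ n ∈ range (m + 1), (univ.image (List.ofFn : (Fin n → Bool) → List Bool)).card ≤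
        2 ^ n := by
      intro n _
      refine card_image_le.trans ?_
      simp
    refine (sum_le_sum h).trans ?_
    have h2 : ∀ k : ℕ, ∑ n ∈ range k, 2 ^ n ≤ 2 ^ k := by
      intro k
      induction k with
      | zero => simp
      | succ k ih => rw [sum_range_succ, pow_succ]; omega
    exact h2 _
  · intro w
    rw [mem_biUnion]
    refine ⟨fun h => ⟨w.length, mem_range.2 (by omega), mem_image.2
      ⟨fun i => w.get i, mem_univ _, List.ofFn_get w⟩⟩, ?_⟩
    rintro ⟨n, hn, hw⟩
    obtain ⟨f, _, rfl⟩ := mem_image.1 hw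
    rw [mem_range] at hn
    rw [List.length_ofFn]
    omega

/-- The lists of `j` words of length at most `m`. -/
theorem lists (m j : ℕ) : ∃ W : Finset (List (List Bool)), W.card ≤ 2 ^ ((m + 1) * j) ∧
    ∀ ws : List (List Bool), (ws.length = j ∧ ∀ w ∈ ws, w.length ≤ m) ↔ ws ∈ W := by
  classical
  obtain ⟨W, hW, hWm⟩ := words m
  induction j with
  | zero =>
    refine ⟨{[]}, by simp, fun ws => ?_⟩
    rw [mem_singleton]
    refine ⟨fun h => List.length_eq_zero_iff.1 h.1, ?_⟩
    rintro rfl
    simp
  | succ j ih =>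
    obtain ⟨WS, h1, h2⟩ := ih
    refine ⟨(W ×ˢ WS).image fun p => p.1 :: p.2, ?_, fun ws => ?_⟩
    · refine card_image_le.trans ?_
      rw [card_product, Nat.mul_succ, pow_add, mul_comm]
      exact Nat.mul_le_mul h1 hW
    · rw [mem_image]
      refine ⟨?_, ?_⟩
      · rintro ⟨h3, h4⟩
        cases ws with
        | nil => simp at h3
        | cons w ws =>
          refine ⟨(w, ws), mem_product.2 ⟨(hWm w).1 (h4 w (by simp)), (h2 ws).1 ⟨?_, ?_⟩⟩, rfl⟩
          · simpa using h3
          · intro u hu
            exact h4 u (by simp [hu])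
      · rintro ⟨p, hp, rfl⟩
        rw [mem_product] at hp
        obtain ⟨h3, h4⟩ := (h2 p.2).2 hp.2
        refine ⟨by simp [h3], ?_⟩
        intro u hu
        rw [List.mem_cons] at hu
        rcases hu with rfl | hu
        · exact (hWm _).2 hp.1
        · exact h4 u hu

end Pool.Agent.H75.QC
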