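import Pool.Agent.H68.QC.Targets
import Pool.Agent.H70.OQ.All
import Pool.Agent.H75.QC.Words

/-!
# QST: all quantum gates become decision trees
-/

set_option autoImplicit false

namespace Pool.Agent.H75.QC

open Finset Pool.Agent.H6.NB Pool.Agent.H70.OQ Pool.Agent.H70.RK Pool.Agent.H68.QC

lemma ic_one {p : Prop} (h : p) : ic p = 1 := by
  unfold ic
  rw [if_pos h]

lemma ic_zero {p : Prop} (h : ¬ p) : ic p = 0 := by
  unfold ic
  rw [if_neg h]

lemma ic_nonneg (p : Prop) : 0 ≤ ic p := by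
  unfold ic
  split_ifs <;> norm_num

/-- Union bound for indicators. -/
lemma ic_union {ι : Type} (s : Finset ι) (p : Prop) (f : ι → Prop)
    (h : ¬ p → ∃ i ∈ s, ¬ f i) : ic (¬ p) ≤ ∑ i ∈ s, ic (¬ f i) := by
  by_cases hp : p
  · rw [ic_zero (not_not.2 hp)]
    exact sum_nonneg fun i _ => ic_nonneg _
  · obtain ⟨i, hi, hf⟩ := h hp
    rw [ic_one hp, ← ic_one hf]
    exact single_le_sum (f := fun i => ic (¬ f i)) (fun i _ => ic_nonneg _) hi

/-- QST. -/
theorem pf_QST (hLMQ : T_LMQ) (hA0D : T_A0D) (hALF : T_ALF) (hALT : T_ALT) : T_QST := by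
  intro V _ _ mw m j t D T q alg V1 V0 hm hAdm hT ht hD h0 hq hc hF
  obtain ⟨e, he, hV1, hV0⟩ := hF
  have htr : ∀ w, ∃ t' : Pool.Agent.H68.AC.DT V, t'.depth ≤ t ∧ ∀ y, t'.eval y = e w y :=
    fun w => hA0D V t t (e w) (he w)
  choose tr htr1 htr2 using htr
  obtain ⟨WS, hWc, hWS⟩ := lists mw j
  have hlw : ∀ l : V → Bool, 0 ≤ lw q l := Pool.Agent.H62.OQ.lw_nonneg q h0.le (by linarith)
  -- the trees exist for all lists of words
  have hone : ∀ ws ∈ WS, ∑ l : V → Bool, lw q l *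
      ic (¬ ∃ R, R.depth ≤ D ∧ GTree (alg ws) tr l R) ≤ 4 / 2 ^ D := by
    intro ws hws
    obtain ⟨h1, h2⟩ := (hWS ws).2 hws
    have h3 := (hAdm ws h1 h2).2
    refine hLMQ V (alg ws) tr t D q htr1 ht hD h0 hq (le_trans ?_ hc)
    have h4 : (0 : ℝ) ≤ (alg ws).T := by positivity
    have h5 : ((alg ws).T + 1 : ℝ) ^ 2 ≤ (T + 1) ^ 2 := pow_le_pow_left₀ (by linarith) (by linarith) 2
    have h6 : 0 ≤ 2 * 10 ^ 4 * q := by positivity
    exact mul_le_mul_of_nonneg_right (mul_le_mul_of_nonneg_right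
      (mul_le_mul_of_nonneg_left h5 h6) (by positivity)) (by positivity)
  -- the union bound
  have hpt : ∀ l : V → Bool, ic (¬ RedL (FmC V (2 ^ (m + 1)) D j) V1 V0 l) ≤
      ∑ ws ∈ WS, ic (¬ ∃ R, R.depth ≤ D ∧ GTree (alg ws) tr l R) := by
    intro l
    refine ic_union WS _ (fun ws => ∃ R, R.depth ≤ D ∧ GTree (alg ws) tr l R) fun hneg => ?_
    by_contra hcon
    push Not at hcon
    refine hneg ?_
    have hex : ∀ ws : List (List Bool), ∃ R : Pool.Agent.H68.AC.DT V, R.depth ≤ D ∧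
        (ws ∈ WS → GTree (alg ws) tr l R) := by
      intro ws
      by_cases hws : ws ∈ WS
      · obtain ⟨R, h1, h2⟩ := hcon ws hws
        exact ⟨R, h1, fun _ => h2⟩
      · exact ⟨.leaf false, Nat.zero_le _, fun h => absurd h hws⟩
    choose R hR1 hR2 using hex
    obtain ⟨F, hF1, hF2⟩ := hALF V mw j D R hR1
    have hFm : Fm (2 ^ (m + 1)) D j F := pf_FMM V _ _ _ _ _ F
      (Nat.pow_le_pow_right (by norm_num) (by omega)) le_rfl hF1
    refine ⟨fun y => F y = true, fun y => F y = false, ⟨F, hFm, fun _ => Iff.rfl, fun _ => Iff.rfl⟩,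
      fun y hy => ⟨fun h1 => ?_, fun h1 => ?_⟩⟩
    · have h2 := (hV1 y).1 h1
      rw [show (fun w => e w y) = fun w => (tr w).eval y from funext fun w => (htr2 w y).symm] at h2
      change F y = true
      rw [hF2]
      refine (hALT _ true j _ _).1 (fun ws hl hw h3 => ?_) h2
      exact (hR2 ws ((hWS ws).1 ⟨hl, hw⟩) y hy).1 h3
    · have h2 := (hV0 y).1 h1
      rw [show (fun w => e w y) = fun w => (tr w).eval y from funext fun w => (htr2 w y).symm] at h2
      change F y = false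
      rw [← Bool.not_eq_true, hF2, (hALT _ true j _ (fun _ => True)).2]
      refine (hALT _ false j _ _).1 (fun ws hl hw h3 => ?_) h2
      rw [(hR2 ws ((hWS ws).1 ⟨hl, hw⟩) y hy).2 h3]
      decide
  calc ∑ l : V → Bool, lw q l * ic (¬ RedL (FmC V (2 ^ (m + 1)) D j) V1 V0 l)
      ≤ ∑ l : V → Bool, lw q l * ∑ ws ∈ WS, ic (¬ ∃ R, R.depth ≤ D ∧ GTree (alg ws) tr l R) :=
        sum_le_sum fun l _ => mul_le_mul_of_nonneg_left (hpt l) (hlw l)
    _ = ∑ ws ∈ WS, ∑ l : V → Bool, lw q l * ic (¬ ∃ R, R.depth ≤ D ∧ GTree (alg ws) tr l R) := by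
        rw [sum_comm]
        exact sum_congr rfl fun l _ => mul_sum _ _ _
    _ ≤ ∑ ws ∈ WS, 4 / 2 ^ D := sum_le_sum hone
    _ = WS.card * (4 / 2 ^ D) := by rw [sum_const, nsmul_eq_mul]
    _ ≤ 2 ^ ((m + 1) * j) * (4 / 2 ^ D) := by
        refine mul_le_mul_of_nonneg_right ?_ (by positivity)
        have h1 : WS.card ≤ 2 ^ ((m + 1) * j) :=
          hWc.trans (Nat.pow_le_pow_right (by norm_num) (Nat.mul_le_mul_right j (by omega)))
        exact_mod_cast h1

end Pool.Agent.H75.QC
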