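import Pool.Agent.H75.QC.RDA
import Pool.Agent.H75.QC.Words

/-!
# RDF: a family of questions loses one level
-/

set_option autoImplicit false

namespace Pool.Agent.H75.QC

open Finset Pool.Agent.H6.NB Pool.Agent.H70.OQ Pool.Agent.H70.RK Pool.Agent.H68.QC

/-- RDF. -/
theorem pf_RDF (hRDA : T_RDA) (hAMN : T_AMN) : T_RDF := by
  intro A Z _ _ _ _ Φ1 Φ0 m t w r t' q L V1 V0 ht htw hq0 hq hL htt h1 h0 hF
  obtain ⟨e, he, hV1, hV0⟩ := hF
  have hwr : (1 : ℝ) ≤ w := by exact_mod_cast ht.trans htw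
  have hq1 : q ≤ 1 := by nlinarith
  obtain ⟨W, hW, hWm⟩ := words m
  have hone : ∀ u ∈ W.toList, pr q L (fun h l => ¬ Gd (Adp (Qst A (t * w) r) (t * w)) (e u) h l) ≤
      2 ^ (t * (2 * r + 1)) * (5 / 2 ^ (w + 1)) := fun u _ =>
    hRDA A Z t w r q L (e u) ht htw hq0 hq hL (he u)
  have h2 := pr_list hq0.le hq1 L _ W.toList
    (fun u h l => ¬ Gd (Adp (Qst A (t * w) r) (t * w)) (e u) h l) hone
  rw [length_toList] at h2
  have h3 : (W.card : ℝ) * (2 ^ (t * (2 * r + 1)) * (5 / 2 ^ (w + 1))) ≤ erho m t w r := by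
    unfold erho
    refine mul_le_mul_of_nonneg_right ?_ (by positivity)
    exact_mod_cast hW
  refine le_trans (pr_mono hq0.le hq1 L (fun h l => ¬ RedC (Fam A Φ1 Φ0 t' r) V1 V0 h l) _
    fun h l hneg => ?_) (h2.trans h3)
  by_contra hcon
  push Not at hcon
  refine hneg ?_
  have hex : ∀ u : List Bool, ∃ g' : (A → Bool) → Bool, Adp (Qst A t' r) t' g' ∧
      (u ∈ W → ∀ s : A → Bool, (∀ a, l a = false → s a = true) → g' s = e u (glu h s)) := by
    intro u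
    by_cases hu : u ∈ W
    · obtain ⟨g', h4, h5⟩ := hcon u (mem_toList.2 hu)
      exact ⟨g', adp_mono (hAMN A (t * w) t' r g' htt h4) t' (by omega), fun _ => h5⟩
    · exact ⟨fun _ => false, Adp.pure _ false, fun h' => absurd h' hu⟩
  choose e' he1 he2 using hex
  refine ⟨fun y => Φ1 fun u => e' u y, fun y => Φ0 fun u => e' u y,
    ⟨e', he1, fun _ => Iff.rfl, fun _ => Iff.rfl⟩, fun s hs => ⟨fun h6 => ?_, fun h6 => ?_⟩⟩
  · refine h1 _ _ (fun u hu => ?_) ((hV1 _).1 h6)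
    exact (he2 u ((hWm u).1 hu) s hs).symm
  · refine h0 _ _ (fun u hu => ?_) ((hV0 _).1 h6)
    exact (he2 u ((hWm u).1 hu) s hs).symm

end Pool.Agent.H75.QC
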