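import Pool.Agent.H68.QC.Targets
import Pool.Agent.H70.OQ.All

/-!
# RDA: the adaptive questions lose one level
-/

set_option autoImplicit false

namespace Pool.Agent.H75.QC

open Finset Pool.Agent.H6.NB Pool.Agent.H70.OQ Pool.Agent.H70.RK Pool.Agent.H68.QC

/-- More questions. -/
lemma adp_mono {V α : Type} {q : ((V → Bool) → Bool) → Prop} {c : ℕ} {g : (V → Bool) → α}
    (h : Adp q c g) : ∀ d, c ≤ d → Adp q d g := by
  induction h with
  | pure c a => intro d _; exact Adp.pure d a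
  | ask c p g g0 g1 hp h0 h1 hg1 hg0 ih0 ih1 =>
    intro d hd
    obtain ⟨d', rfl⟩ : ∃ d', d = d' + 1 := ⟨d - 1, by omega⟩
    exact Adp.ask d' p g g0 g1 hp (ih0 d' (by omega)) (ih1 d' (by omega)) hg1 hg0

/-- Case distinction by an adaptive computation. -/
lemma adp_ite {V : Type} {q : ((V → Bool) → Bool) → Prop} {c : ℕ} {p : (V → Bool) → Bool}
    (h : Adp q c p) : ∀ (d : ℕ) (g0 g1 : (V → Bool) → Bool), Adp q d g0 → Adp q d g1 →
      Adp q (c + d) fun X => if p X = true then g1 X else g0 X := by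
  induction h with
  | pure c a =>
    intro d g0 g1 h0 h1
    cases a
    · simpa using adp_mono h0 (c + d) (by omega)
    · simpa using adp_mono h1 (c + d) (by omega)
  | ask c p g p0 p1 hp h0 h1 hg1 hg0 ih0 ih1 =>
    intro d g0 g1 k0 k1
    have e : c + 1 + d = (c + d) + 1 := by omega
    rw [e]
    refine Adp.ask (c + d) p _ (fun X => if p0 X = true then g1 X else g0 X)
      (fun X => if p1 X = true then g1 X else g0 X) hp (ih0 d g0 g1 k0 k1) (ih1 d g0 g1 k0 k1)
      (fun X hX => ?_) (fun X hX => ?_)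
    · rw [hg1 X hX]
    · rw [hg0 X hX]

/-- Decision trees are adaptive questions of level `0`. -/
lemma adp_tree {V : Type} (t : ℕ) (T : Pool.Agent.H68.AC.DT V) :
    ∀ c, T.depth ≤ c → Adp (Qst V t 0) c fun y => T.eval y := by
  induction T with
  | leaf b => intro c _; exact Adp.pure c b
  | node v l r ihl ihr =>
    intro c hc
    unfold Pool.Agent.H68.AC.DT.depth at hc
    obtain ⟨c', rfl⟩ : ∃ c', c = c' + 1 := ⟨c - 1, by omega⟩
    refine Adp.ask c' (fun X => X v) _ (fun y => l.eval y) (fun y => r.eval y) ⟨v, fun _ => rfl⟩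
      (ihl c' (by omega)) (ihr c' (by omega)) (fun X hX => ?_) (fun X hX => ?_)
    · change cond (X v) _ _ = _
      have hX' : X v = true := hX
      rw [hX']
      rfl
    · change cond (X v) _ _ = _
      have hX' : X v = false := hX
      rw [hX']
      rfl

section

variable {A Z : Type} [Fintype A] [DecidableEq A] [Fintype Z] [DecidableEq Z]

/-- `g` becomes a function with the property `P`. -/
def Gd (P : ((A → Bool) → Bool) → Prop) (g : (A × Z → Bool) → Bool) (h : A → Z) (l : A → Bool) :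
    Prop := ∃ g' : (A → Bool) → Bool, P g' ∧
      ∀ s : A → Bool, (∀ a, l a = false → s a = true) → g' s = g (glu h s)

/-- The weight of the event. -/
noncomputable def pr (q : ℝ) (L : A → Finset Z) (E : (A → Z) → (A → Bool) → Prop) : ℝ :=
  ∑ h : A → Z, ∑ l : A → Bool, uw L h * lw q l * ic (E h l)

lemma ic_nn' (p : Prop) : 0 ≤ ic p := by
  unfold ic
  split_ifs <;> norm_num

omit [DecidableEq A] [Fintype Z] in
lemma wt_nonneg {q : ℝ} (h0 : 0 ≤ q) (h1 : q ≤ 1) (L : A → Finset Z) (h : A → Z) (l : A → Bool) :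
    0 ≤ uw L h * lw q l := by
  refine mul_nonneg ?_ (Pool.Agent.H62.OQ.lw_nonneg q h0 h1 l)
  unfold uw
  refine prod_nonneg fun a _ => ?_
  split_ifs <;> positivity

lemma pr_mono {q : ℝ} (h0 : 0 ≤ q) (h1 : q ≤ 1) (L : A → Finset Z)
    (E E' : (A → Z) → (A → Bool) → Prop) (h : ∀ a b, E a b → E' a b) : pr q L E ≤ pr q L E' := by
  unfold pr
  refine sum_le_sum fun a _ => sum_le_sum fun b _ =>
    mul_le_mul_of_nonneg_left ?_ (wt_nonneg h0 h1 L a b)
  unfold ic
  by_cases hE : E a b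
  · rw [if_pos hE, if_pos (h a b hE)]
  · rw [if_neg hE]
    split_ifs <;> norm_num

lemma pr_nonneg {q : ℝ} (h0 : 0 ≤ q) (h1 : q ≤ 1) (L : A → Finset Z)
    (E : (A → Z) → (A → Bool) → Prop) : 0 ≤ pr q L E :=
  sum_nonneg fun a _ => sum_nonneg fun b _ => mul_nonneg (wt_nonneg h0 h1 L a b) (ic_nn' _)

lemma pr_or {q : ℝ} (h0 : 0 ≤ q) (h1 : q ≤ 1) (L : A → Finset Z)
    (E E1 E2 : (A → Z) → (A → Bool) → Prop) (h : ∀ a b, E a b → E1 a b ∨ E2 a b) :
    pr q L E ≤ pr q L E1 + pr q L E2 := by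
  unfold pr
  rw [← sum_add_distrib]
  refine sum_le_sum fun a _ => ?_
  rw [← sum_add_distrib]
  refine sum_le_sum fun b _ => ?_
  rw [← mul_add]
  refine mul_le_mul_of_nonneg_left ?_ (wt_nonneg h0 h1 L a b)
  have ha := ic_nn' (E1 a b)
  have hb := ic_nn' (E2 a b)
  by_cases hE : E a b
  · rcases h a b hE with h' | h'
    · unfold ic at *
      rw [if_pos hE, if_pos h']
      linarith
    · unfold ic at *
      rw [if_pos hE, if_pos h']
      linarith
  · have : ic (E a b) = 0 := by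
      unfold ic
      rw [if_neg hE]
    linarith

lemma pr_list {q : ℝ} (h0 : 0 ≤ q) (h1 : q ≤ 1) (L : A → Finset Z) {ι : Type} (δ : ℝ)
    (P : List ι) (E : ι → (A → Z) → (A → Bool) → Prop) (hE : ∀ i ∈ P, pr q L (E i) ≤ δ) :
    pr q L (fun a b => ∃ i ∈ P, E i a b) ≤ P.length * δ := by
  induction P with
  | nil =>
    unfold pr
    refine le_of_eq ?_
    simp [ic]
  | cons i P ih =>
    have h2 := ih fun j hj => hE j (List.mem_cons_of_mem _ hj)
    have h3 := hE i List.mem_cons_self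
    have h4 := pr_or h0 h1 L (fun a b => ∃ j ∈ i :: P, E j a b) (E i)
      (fun a b => ∃ j ∈ P, E j a b) (by
        rintro a b ⟨j, hj, h⟩
        rw [List.mem_cons] at hj
        rcases hj with rfl | hj
        · exact Or.inl h
        · exact Or.inr ⟨j, hj, h⟩)
    rw [List.length_cons]
    push_cast
    linarith

/-- From single questions to adaptive questions. -/
lemma rda_adp (q : ℝ) (h0 : 0 ≤ q) (h1 : q ≤ 1) (L : A → Finset Z) (w : ℕ) (δ : ℝ) (hδ : 0 ≤ δ)
    (Q : ((A × Z → Bool) → Bool) → Prop) (Q' : ((A → Bool) → Bool) → Prop)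
    (hQ : ∀ p, Q p → pr q L (fun h l => ¬ Gd (Adp Q' w) p h l) ≤ δ) (c : ℕ)
    (g : (A × Z → Bool) → Bool) (hg : Adp Q c g) :
    pr q L (fun h l => ¬ Gd (Adp Q' (c * w)) g h l) ≤ (2 ^ c - 1) * δ := by
  induction hg with
  | pure c a =>
    have e : pr q L (fun h l => ¬ Gd (Adp Q' (c * w)) (fun _ : A × Z → Bool => a) h l) = 0 := by
      unfold pr
      refine sum_eq_zero fun h _ => sum_eq_zero fun l _ => ?_
      unfold ic
      rw [if_neg, mul_zero]
      rw [not_not]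
      exact ⟨fun _ => a, Adp.pure _ a, fun _ _ => rfl⟩
    rw [e]
    refine mul_nonneg ?_ hδ
    have : (1 : ℝ) ≤ 2 ^ c := one_le_pow₀ (by norm_num)
    linarith
  | ask c p g g0 g1 hp k0 k1 hg1 hg0 ih0 ih1 =>
    have hstep : ∀ h l, ¬ Gd (Adp Q' ((c + 1) * w)) g h l → ¬ Gd (Adp Q' w) p h l ∨
        (¬ Gd (Adp Q' (c * w)) g0 h l ∨ ¬ Gd (Adp Q' (c * w)) g1 h l) := by
      intro h l hneg
      by_contra hcon
      push Not at hcon
      obtain ⟨⟨p', hp1, hp2⟩, ⟨g0', h01, h02⟩, ⟨g1', h11, h12⟩⟩ := hcon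
      refine hneg ⟨fun s => if p' s = true then g1' s else g0' s, ?_, fun s hs => ?_⟩
      · have e : (c + 1) * w = w + c * w := by ring
        rw [e]
        exact adp_ite hp1 (c * w) g0' g1' h01 h11
      · change (if p' s = true then g1' s else g0' s) = g (glu h s)
        rw [hp2 s hs]
        cases hpp : p (glu h s)
        · rw [if_neg (by decide), h02 s hs, hg0 _ hpp]
        · rw [if_pos rfl, h12 s hs, hg1 _ hpp]
    have e1 := pr_or h0 h1 L (fun h l => ¬ Gd (Adp Q' ((c + 1) * w)) g h l)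
      (fun h l => ¬ Gd (Adp Q' w) p h l)
      (fun h l => ¬ Gd (Adp Q' (c * w)) g0 h l ∨ ¬ Gd (Adp Q' (c * w)) g1 h l) hstep
    have e2 := pr_or h0 h1 L
      (fun h l => ¬ Gd (Adp Q' (c * w)) g0 h l ∨ ¬ Gd (Adp Q' (c * w)) g1 h l)
      (fun h l => ¬ Gd (Adp Q' (c * w)) g0 h l) (fun h l => ¬ Gd (Adp Q' (c * w)) g1 h l)
      (fun _ _ h => h)
    have e3 := hQ p hp
    rw [pow_succ]
    linarith

/-- Single questions. -/
lemma rda_qst (hA0D : T_A0D) (t w : ℕ) (q : ℝ) (L : A → Finset Z) (ht : 1 ≤ t) (htw : t ≤ w)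
    (hq0 : 0 < q) (hq : 64 * w * q ≤ 1) (hL : ∀ a, Fintype.card A ≤ (L a).card) (r : ℕ) :
    ∀ p : (A × Z → Bool) → Bool, Qst (A × Z) t (r + 1) p →
      pr q L (fun h l => ¬ Gd (Adp (Qst A (t * w) r) w) p h l) ≤
        2 ^ (t * (2 * r)) * (5 / 2 ^ (w + 1)) := by
  have hw : 1 ≤ w := ht.trans htw
  have hwr : (1 : ℝ) ≤ w := by exact_mod_cast hw
  have hq1 : q ≤ 1 := by nlinarith
  induction r with
  | zero =>
    rintro p ⟨P, hP1, hP2, hP3⟩
    have hFm : Fm (2 ^ t) w 1 p := by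
      refine ⟨P.length, fun i => P.get i, fun _ => true, hP1, fun i => ?_, fun y => ?_⟩
      · obtain ⟨T, hT1, hT2⟩ := hA0D _ t t _ (hP2 (P.get i) (List.get_mem P i))
        exact ⟨T, hT1.trans htw, hT2⟩
      · rw [hP3]
        refine ⟨?_, ?_⟩
        · rintro ⟨g, hg, hgy⟩
          obtain ⟨i, rfl⟩ := List.mem_iff_get.1 hg
          exact ⟨i, hgy⟩
        · rintro ⟨i, hi⟩
          exact ⟨P.get i, List.get_mem P i, hi⟩
    have h2 := pf_RED A Z (2 ^ t) w 0 q L p hw hq0 hq hL hFm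
    rw [pow_zero, one_mul] at h2
    rw [Nat.mul_zero, pow_zero, one_mul]
    refine le_trans (pr_mono hq0.le hq1 L _ (fun h l => ¬ Red (2 ^ t) w 0 p h l)
      fun h l hneg hred => hneg ?_) h2
    obtain ⟨f', ⟨T, hT1, hT2⟩, hf'⟩ := hred
    refine ⟨fun y => T.eval y, adp_tree _ T w hT1, fun s hs => ?_⟩
    rw [← hf' s hs]
    exact hT2 s
  | succ r ih =>
    rintro p ⟨P, hP1, hP2, hP3⟩
    set δ : ℝ := 2 ^ (t * (2 * r)) * (5 / 2 ^ (w + 1)) with hδ
    have hδ0 : 0 ≤ δ := by positivity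
    have hone : ∀ g ∈ P, pr q L (fun h l => ¬ Gd (Adp (Qst A (t * w) r) (t * w)) g h l) ≤
        2 ^ t * δ := by
      intro g hg
      refine (rda_adp q hq0.le hq1 L w δ hδ0 _ _ ih t g (hP2 g hg)).trans ?_
      exact mul_le_mul_of_nonneg_right (by linarith) hδ0
    have h2 := pr_list hq0.le hq1 L (2 ^ t * δ) P
      (fun g h l => ¬ Gd (Adp (Qst A (t * w) r) (t * w)) g h l) hone
    have h3 : (P.length : ℝ) * (2 ^ t * δ) ≤ 2 ^ t * (2 ^ t * δ) := by
      refine mul_le_mul_of_nonneg_right ?_ (by positivity)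
      exact_mod_cast hP1
    have e : (2 : ℝ) ^ (t * (2 * (r + 1))) * (5 / 2 ^ (w + 1)) = 2 ^ t * (2 ^ t * δ) := by
      rw [hδ, show t * (2 * (r + 1)) = t + (t + t * (2 * r)) by ring, pow_add, pow_add]
      ring
    rw [e]
    refine le_trans (pr_mono hq0.le hq1 L _ _ fun h l hneg => ?_) (h2.trans h3)
    by_contra hcon
    push Not at hcon
    refine hneg ?_
    have hex : ∀ g : (A × Z → Bool) → Bool, ∃ g' : (A → Bool) → Bool, g ∈ P →
        Adp (Qst A (t * w) r) (t * w) g' ∧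
          ∀ s : A → Bool, (∀ a, l a = false → s a = true) → g' s = g (glu h s) := by
      intro g
      by_cases hg : g ∈ P
      · obtain ⟨g', h4, h5⟩ := hcon g hg
        exact ⟨g', fun _ => ⟨h4, h5⟩⟩
      · exact ⟨fun _ => false, fun h => absurd h hg⟩
    choose φ hφ using hex
    classical
    refine ⟨fun s => decide (∃ g' ∈ P.map φ, g' s = true), ?_, fun s hs => ?_⟩
    · have hQ : Qst A (t * w) (r + 1) fun s => decide (∃ g' ∈ P.map φ, g' s = true) := by
        refine ⟨P.map φ, ?_, ?_, fun X => by rw [decide_eq_true_eq]⟩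
        · rw [List.length_map]
          exact hP1.trans (Nat.pow_le_pow_right (by norm_num) (Nat.le_mul_of_pos_right t hw))
        · intro g' hg'
          obtain ⟨g, hg, rfl⟩ := List.mem_map.1 hg'
          exact (hφ g hg).1
      have h6 : Adp (Qst A (t * w) (r + 1)) 1 fun s => decide (∃ g' ∈ P.map φ, g' s = true) :=
        Adp.ask 0 _ _ (fun _ => false) (fun _ => true) hQ (Adp.pure 0 false) (Adp.pure 0 true)
          (fun X hX => hX) (fun X hX => hX)
      exact adp_mono h6 w hw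
    · rw [Bool.eq_iff_iff, decide_eq_true_eq, hP3]
      refine ⟨?_, ?_⟩
      · rintro ⟨g', hg', h7⟩
        obtain ⟨g, hg, rfl⟩ := List.mem_map.1 hg'
        exact ⟨g, hg, by rw [← (hφ g hg).2 s hs]; exact h7⟩
      · rintro ⟨g, hg, h7⟩
        exact ⟨φ g, List.mem_map.2 ⟨g, hg, rfl⟩, by rw [(hφ g hg).2 s hs]; exact h7⟩

end

/-- RDA. -/
theorem pf_RDA (hA0D : T_A0D) : T_RDA := by
  intro A Z _ _ _ _ t w r q L g ht htw hq0 hq hL hg
  have hw : 1 ≤ w := ht.trans htw
  have hwr : (1 : ℝ) ≤ w := by exact_mod_cast hw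
  have hq1 : q ≤ 1 := by nlinarith
  set δ : ℝ := 2 ^ (t * (2 * r)) * (5 / 2 ^ (w + 1)) with hδ
  have hδ0 : 0 ≤ δ := by positivity
  have h1 := rda_adp q hq0.le hq1 L w δ hδ0 _ _
    (rda_qst hA0D t w q L ht htw hq0 hq hL r) t g hg
  have e : (2 : ℝ) ^ (t * (2 * r + 1)) * (5 / 2 ^ (w + 1)) = 2 ^ t * δ := by
    rw [hδ, show t * (2 * r + 1) = t + t * (2 * r) by ring, pow_add]
    ring
  rw [e]
  refine le_trans h1 ?_
  exact mul_le_mul_of_nonneg_right (by linarith) hδ0

end Pool.Agent.H75.QC
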